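import Pool.Agent.H68.GHK.Defs
import Pool.Agent.H69.GK.FLG

/-!
Board ghk (MP_52e316_nt): the projections of the flag of a product of an orthogonal and an upper
triangular matrix.
-/

namespace Pool.Agent.H49.GHK

open MeasureTheory Pool.Agent.H34.GM Pool.Agent.H69.GK Pool.Agent.H68.GHK

/-- the first columns of a product with an upper triangular matrix -/
lemma sub_tri {m j : ℕ} (h : j ≤ m) (k a : Mat m) (ha : ∀ i l : Fin m, l < i → a i l = 0) :
    (k * a).submatrix id (Fin.castLE h) = k.submatrix id (Fin.castLE h) *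
      a.submatrix (Fin.castLE h) (Fin.castLE h) := by
  ext i l
  rw [Matrix.submatrix_apply, Matrix.mul_apply, Matrix.mul_apply]
  simp only [Matrix.submatrix_apply, id]
  have h1 : ∑ p : Fin j, k i (Fin.castLE h p) * a (Fin.castLE h p) (Fin.castLE h l) =
      ∑ p ∈ (Finset.univ : Finset (Fin j)).map (Fin.castLEEmb h),
        k i p * a p (Fin.castLE h l) := by
    rw [Finset.sum_map]
    rfl
  rw [h1]
  symm
  refine Finset.sum_subset (Finset.subset_univ _) fun p _ hp => ?_
  have h2 : j ≤ (p : ℕ) := by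
    by_contra hcon
    apply hp
    rw [Finset.mem_map]
    exact ⟨⟨p, not_le.mp hcon⟩, Finset.mem_univ _, by ext; rfl⟩
  rw [ha p (Fin.castLE h l) (by
    rw [Fin.lt_def]
    change (l : ℕ) < p
    exact lt_of_lt_of_le l.2 h2), mul_zero]

/-- the columns of an orthogonal matrix -/
lemma sub_sq {m j : ℕ} (h : j ≤ m) (k : Mat m) :
    k.submatrix id (Fin.castLE h) * (k.submatrix id (Fin.castLE h)).transpose = Ek k j := by
  unfold Ek
  ext i l
  rw [Matrix.mul_apply, Matrix.mul_apply]
  have h0 : ∀ p : Fin m, (k * Pool.Agent.H40.GHK.cflag m j) i p * k.transpose p l =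
      if (p : ℕ) < j then k i p * k l p else 0 := by
    intro p
    unfold Pool.Agent.H40.GHK.cflag
    rw [Matrix.mul_diagonal, Matrix.transpose_apply]
    split_ifs <;> ring
  rw [Finset.sum_congr rfl fun p _ => h0 p, ← Finset.sum_filter]
  have h1 : (Finset.univ.filter fun p : Fin m => (p : ℕ) < j) =
      (Finset.univ : Finset (Fin j)).map (Fin.castLEEmb h) := by
    ext p
    rw [Finset.mem_filter, Finset.mem_map]
    constructor
    · intro hp
      exact ⟨⟨p, hp.2⟩, Finset.mem_univ _, by ext; rfl⟩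
    · rintro ⟨q, -, rfl⟩
      exact ⟨Finset.mem_univ _, q.2⟩
  rw [h1, Finset.sum_map]
  rfl

/-- the projection of the flag -/
theorem EPk {m j : ℕ} (h : j ≤ m) (k a : Mat m) (hk : k * k.transpose = 1)
    (ha : ∀ i l : Fin m, l < i → a i l = 0) (hd : ∀ i, a i i ≠ 0) :
    EP j (k * a) = Ek k j := by
  have hk2 : k.transpose * k = 1 := mul_eq_one_comm.mp hk
  unfold EP
  rw [dif_pos h, sub_tri h k a ha]
  obtain ⟨S, hS⟩ : ∃ S : Matrix (Fin m) (Fin j) ℝ, S = k.submatrix id (Fin.castLE h) := ⟨_, rfl⟩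
  obtain ⟨b, hb⟩ : ∃ b : Matrix (Fin j) (Fin j) ℝ,
    b = a.submatrix (Fin.castLE h) (Fin.castLE h) := ⟨_, rfl⟩
  have hSS : S.transpose * S = 1 := by
    ext i l
    rw [hS, Matrix.mul_apply]
    have h1 := congrFun (congrFun hk2 (Fin.castLE h i)) (Fin.castLE h l)
    rw [Matrix.mul_apply] at h1
    simp only [Matrix.transpose_apply, Matrix.submatrix_apply, id] at h1 ⊢
    rw [h1]
    by_cases hil : i = l
    · subst hil
      rw [Matrix.one_apply_eq, Matrix.one_apply_eq]
    · rw [Matrix.one_apply_ne hil, Matrix.one_apply_ne (fun hc => hil (Fin.castLE_injective h hc))]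
  have hbd : b.det ≠ 0 := by
    have h1 : b.BlockTriangular id := by
      intro i l hil
      rw [hb]
      exact ha _ _ hil
    rw [Matrix.det_of_upperTriangular h1]
    refine Finset.prod_ne_zero_iff.mpr fun i _ => ?_
    rw [hb]
    exact hd _
  have hbu : IsUnit b.det := isUnit_iff_ne_zero.mpr hbd
  have hbt : IsUnit b.transpose.det := by rw [Matrix.det_transpose]; exact hbu
  rw [← hS, ← hb, Matrix.transpose_mul]
  have h2 : b.transpose * S.transpose * (S * b) = b.transpose * b := by
    rw [Matrix.mul_assoc, ← Matrix.mul_assoc S.transpose, hSS, Matrix.one_mul]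
  rw [h2, Matrix.mul_inv_rev]
  calc S * b * (b⁻¹ * b.transpose⁻¹) * (b.transpose * S.transpose)
      = S * (b * b⁻¹) * (b.transpose⁻¹ * b.transpose) * S.transpose := by
        simp only [Matrix.mul_assoc]
    _ = S * S.transpose := by
        rw [Matrix.mul_nonsing_inv _ hbu, Matrix.nonsing_inv_mul _ hbt, Matrix.mul_one,
          Matrix.mul_one]
    _ = Ek k j := by rw [hS]; exact sub_sq h k

/-- the projection of the flag of an orthogonal matrix -/
theorem EPk_one {m j : ℕ} (h : j ≤ m) (k : Mat m) (hk : k * k.transpose = 1) :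
    EP j k = Ek k j := by
  have h1 := EPk h k 1 hk (fun i l hil => Matrix.one_apply_ne (ne_of_gt hil))
    (fun i => by rw [Matrix.one_apply_eq]; exact one_ne_zero)
  rwa [Matrix.mul_one] at h1

/-- the single terms of the distance of the flags -/
theorem Gg_term {m : ℕ} (mu : Fin m → ℂ) (hmon : Monotone (fun j => (mu j).im)) (w w' : Mat m)
    (p q : Fin m) (hpq : (q : ℕ) = p + 1) :
    ((mu q).im - (mu p).im) / 2 * sz (EP q w - EP q w') ≤ Gg mu w w' := by
  have hb : ∀ j, 0 ≤ Pool.Agent.H68.GHK.bt mu j := by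
    intro j
    unfold Pool.Agent.H68.GHK.bt
    split_ifs with h
    · have h1 : (mu ⟨j - 1, by omega⟩).im ≤ (mu ⟨j, h.2⟩).im :=
        hmon (by rw [Fin.le_def]; exact Nat.sub_le _ _)
      linarith
    · exact le_refl _
  have h1 : Pool.Agent.H68.GHK.bt mu q = ((mu q).im - (mu p).im) / 2 := by
    unfold Pool.Agent.H68.GHK.bt
    rw [dif_pos ⟨by omega, q.2⟩]
    have h2 : (⟨(q : ℕ) - 1, by omega⟩ : Fin m) = p := by
      ext
      change (q : ℕ) - 1 = p
      omega
    rw [h2]
  rw [← h1]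
  unfold Gg
  exact Finset.single_le_sum (f := fun j => Pool.Agent.H68.GHK.bt mu j * sz (EP j w - EP j w'))
    (fun j _ => mul_nonneg (hb j) (norm_nonneg _)) (Finset.mem_range.mpr q.2)

theorem Gg_nn {m : ℕ} (mu : Fin m → ℂ) (hmon : Monotone (fun j => (mu j).im)) (w w' : Mat m) :
    0 ≤ Gg mu w w' := by
  unfold Gg
  refine Finset.sum_nonneg fun j _ => mul_nonneg ?_ (norm_nonneg _)
  unfold Pool.Agent.H68.GHK.bt
  split_ifs with h
  · have h1 : (mu ⟨j - 1, by omega⟩).im ≤ (mu ⟨j, h.2⟩).im :=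
      hmon (by rw [Fin.le_def]; exact Nat.sub_le _ _)
    linarith
  · exact le_refl _

end Pool.Agent.H49.GHK
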